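import Pool.Agent.Helper34.SD.Defs

/-!
# Post's tag system (MP_41f897_lc): sparse words halt almost surely; module C3, the limit
-/

set_option autoImplicit false

namespace Pool.Agent.Helper44.SD

open Pool.Agent.Helper34.SD Pool.Agent.Helper34.PT

theorem hC3 : Stmt_C1 → Stmt_C3 := by
  intro hC1 k hk hyp
  rw [Metric.tendsto_atTop]
  intro ε hε
  obtain ⟨M, B, hM, hB, hn⟩ := hyp (ε / 2) (by positivity)
  obtain ⟨n0, hn0⟩ := exists_nat_gt (2 * (M : ℝ) * k / ε)
  refine ⟨max n0 k, fun n hnn => ?_⟩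
  have hn0n : n0 ≤ n := le_trans (le_max_left _ _) hnn
  have hkn : k ≤ n := le_trans (le_max_right _ _) hnn
  obtain ⟨hfin, hcard⟩ := hC1 n k
  have hC : 0 < n.choose k := Nat.choose_pos hkn
  have h1 := hn n
  have hsplit : {w : List Bool | w.length = n ∧ w.count true = k ∧ Halts w}.ncard
      + {w : List Bool | w.length = n ∧ w.count true = k ∧ ¬ Halts w}.ncard
      = n.choose k := by
    have hd : Disjoint {w : List Bool | w.length = n ∧ w.count true = k ∧ Halts w}
        {w : List Bool | w.length = n ∧ w.count true = k ∧ ¬ Halts w} := by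
      rw [Set.disjoint_left]
      rintro w ⟨_, _, h⟩ ⟨_, _, h'⟩
      exact h' h
    rw [← hcard, ← Set.ncard_union_eq hd (hfin.subset fun w hw => ⟨hw.1, hw.2.1⟩)
      (hfin.subset fun w hw => ⟨hw.1, hw.2.1⟩)]
    congr 1
    ext w
    constructor
    · rintro (h | h)
      · exact ⟨h.1, h.2.1⟩
      · exact ⟨h.1, h.2.1⟩
    · intro h
      by_cases hw : Halts w
      · exact Or.inl ⟨h.1, h.2, hw⟩
      · exact Or.inr ⟨h.1, h.2, hw⟩
  have hid : n * (n - 1).choose (k - 1) = k * n.choose k := by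
    obtain ⟨m, rfl⟩ : ∃ m, n = m + 1 := ⟨n - 1, by omega⟩
    obtain ⟨j, rfl⟩ : ∃ j, k = j + 1 := ⟨k - 1, by omega⟩
    have := Nat.add_one_mul_choose_eq m j
    simp only [Nat.add_sub_cancel] at this ⊢
    rw [this, mul_comm]
  set H := {w : List Bool | w.length = n ∧ w.count true = k ∧ Halts w}.ncard with hH
  set N := {w : List Bool | w.length = n ∧ w.count true = k ∧ ¬ Halts w}.ncard with hN
  rw [hcard, Real.dist_eq]
  have hc : (0 : ℝ) < (n.choose k : ℝ) := by exact_mod_cast hC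
  have hM' : (0 : ℝ) < (M : ℝ) := by exact_mod_cast hM
  have hn' : (0 : ℝ) < (n : ℝ) := by exact_mod_cast (show 0 < n by omega)
  have e1 : (H : ℝ) + N = (n.choose k : ℝ) := by exact_mod_cast hsplit
  have e2 : (H : ℝ) / (n.choose k : ℝ) - 1 = -((N : ℝ) / (n.choose k : ℝ)) := by
    rw [← e1]
    have : (H : ℝ) + N ≠ 0 := by rw [e1]; exact hc.ne'
    field_simp
    ring
  rw [e2, abs_neg, abs_of_nonneg (by positivity), div_lt_iff₀ hc]
  have h1' : (M : ℝ) * N ≤ B * (n.choose k : ℝ)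
      + M * (M * ((n - 1).choose (k - 1) : ℝ)) := by exact_mod_cast h1
  have hid' : (n : ℝ) * ((n - 1).choose (k - 1) : ℝ) = k * (n.choose k : ℝ) := by
    exact_mod_cast hid
  have hnb : 2 * (M : ℝ) * k < n * ε := by
    have h2 : 2 * (M : ℝ) * k / ε < n := lt_of_lt_of_le hn0 (by exact_mod_cast hn0n)
    rwa [div_lt_iff₀ hε] at h2
  set c : ℝ := (n.choose k : ℝ) with hcdef
  set c' : ℝ := ((n - 1).choose (k - 1) : ℝ) with hc'
  have h2 : (M : ℝ) * n * N ≤ n * (ε / 2 * M * c) + M * (M * (k * c)) := by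
    have h3 : (n : ℝ) * (M * N) ≤ n * (B * c + M * (M * c')) :=
      mul_le_mul_of_nonneg_left h1' hn'.le
    have h4 : (n : ℝ) * (B * c + M * (M * c')) = n * (B * c) + M * (M * (n * c')) := by ring
    rw [h4, hid'] at h3
    have h5 : (n : ℝ) * (B * c) ≤ n * (ε / 2 * M * c) :=
      mul_le_mul_of_nonneg_left (mul_le_mul_of_nonneg_right hB hc.le) hn'.le
    calc (M : ℝ) * n * N = n * (M * N) := by ring
      _ ≤ _ := h3
      _ ≤ _ := by linarith
  have h3 : (M : ℝ) * (M * (k * c)) < M * (n * (ε / 2) * c) := by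
    apply mul_lt_mul_of_pos_left _ hM'
    have : (M : ℝ) * (k * c) = M * k * c := by ring
    rw [this]
    apply mul_lt_mul_of_pos_right _ hc
    linarith
  have h4 : (M : ℝ) * n * N < M * n * (ε * c) := by
    have : (M : ℝ) * n * (ε * c) = n * (ε / 2 * M * c) + M * (n * (ε / 2) * c) := by ring
    rw [this]
    linarith
  exact lt_of_mul_lt_mul_left h4 (by positivity)

end Pool.Agent.Helper44.SD
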